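import Pool.Agent.H27.L1.H34.GZ.Targets2
import Mathlib.Analysis.InnerProductSpace.GramSchmidtOrtho

/-!
Targets of the board gz, group 5: test functions adapted to the parameters at infinity
(page H34_GZ.md, section 6; page H23_PHX.md).
-/

namespace Pool.Agent.H27.L1.H34.GZ

open MeasureTheory Pool.Agent.H27.L1.H34.GM

/-! ### definitions -/

/-- the column `j` as a Euclidean vector -/
noncomputable def col {m : ℕ} (z : Mat m) (j : Fin m) : EuclideanSpace ℝ (Fin m) :=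
  WithLp.toLp 2 (fun i => z i j)

/-- the component of the column `j` orthogonal to the columns before `j` -/
noncomputable def oc {m : ℕ} (z : Mat m) (j : Fin m) : EuclideanSpace ℝ (Fin m) :=
  InnerProductSpace.gramSchmidt ℝ (col z) j

/-- the orthogonal component of the column `j` is multiplied by `ρ j`, for all `j` -/
noncomputable def sc {m : ℕ} (ρ : Fin m → ℝ) (z : Mat m) : Mat m :=
  Matrix.of fun i j => z i j + (ρ j - 1) * oc z j i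

/-- a polynomial with the zeros `2 ^ k`, `k < K` -/
noncomputable def pK (K : ℕ) : Polynomial ℝ :=
  ∏ k ∈ Finset.range K, (Polynomial.C ((1 / 2 : ℝ) ^ k) * Polynomial.X - 1)

/-- the exponents `n` with `n j ≤ K j` -/
def nK {m : ℕ} (K : Fin m → ℕ) : Finset (Fin m → ℕ) :=
  Fintype.piFinset fun j => Finset.range (K j + 1)

/-- the coefficients -/
noncomputable def cK {m : ℕ} (K : Fin m → ℕ) (c : Fin m → ℂ) (n : Fin m → ℕ) : ℂ :=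
  ∏ j, (((pK (K j)).coeff (n j) : ℝ) : ℂ) * c j ^ n j

/-- the scalar `2 ^ (|n| / m)` -/
noncomputable def tw {m : ℕ} (n : Fin m → ℕ) : ℝ := (2 : ℝ) ^ (((∑ j, n j : ℕ) : ℝ) / m)

/-- combination of dilates -/
noncomputable def dK {m : ℕ} (K : Fin m → ℕ) (c : Fin m → ℂ) (f : Mat m → ℂ) (z : Mat m) : ℂ :=
  ∑ n ∈ nK K, cK K c n * f (tw n • z)

/-- the same for the inverse dilations -/
noncomputable def eK {m : ℕ} (K : Fin m → ℕ) (c : Fin m → ℂ) (f : Mat m → ℂ) (z : Mat m) : ℂ :=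
  ∑ n ∈ nK K, cK K c n * ((tw n ^ (m ^ 2))⁻¹ : ℝ) * f ((tw n)⁻¹ • z)

/-- combination of scalings of the orthogonal components -/
noncomputable def sK {m : ℕ} (K : Fin m → ℕ) (f : Mat m → ℂ) (z : Mat m) : ℂ :=
  ∑ n ∈ nK K, cK K 1 n * f (sc (fun j => (2 : ℝ) ^ n j) z)

/-- the factors `2 ^ (mu_j + (m - 1) / 2)` -/
noncomputable def cmu {m : ℕ} (mu : Fin m → ℂ) (j : Fin m) : ℂ :=
  (2 : ℂ) ^ (mu j + ((m : ℂ) - 1) / 2)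

/-- Euler operator -/
noncomputable def eu {m : ℕ} (f : Mat m → ℂ) (z : Mat m) : ℂ := deriv (fun c : ℝ => f (c • z)) 1

/-- its dual -/
noncomputable def eu2 {m : ℕ} (f : Mat m → ℂ) (z : Mat m) : ℂ := -((m : ℂ) ^ 2 * f z + eu f z)

/-- `ψ(w) = conj (ft f w)` -/
noncomputable def cf {m : ℕ} (f : Mat m → ℂ) (w : Mat m) : ℂ := (starRingEnd ℂ) (ft f w)

/-- the sum of the squares of the entries of `zᵀ z - 1` -/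
noncomputable def dO {m : ℕ} (z : Mat m) : ℝ := ∑ i, ∑ j, ((z.transpose * z - 1) i j) ^ 2

/-- rapidly decreasing -/
def Rap {m : ℕ} (f : Mat m → ℂ) : Prop :=
  ∀ N : ℕ, ∃ M : ℝ, ∀ z, ‖f z‖ ≤ M * (1 + sz z) ^ (-(N : ℝ))

/-- the real exponents of `|pw mu|` -/
noncomputable def xp {m : ℕ} (mu : Fin m → ℂ) (j : Fin m) : ℝ :=
  -(mu j).re + (2 * ((j : ℕ) + 1 : ℝ) - m - 1) / 2

/-! ### the power function -/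

/-- GSM: leading minors and orthogonal components -/
def T_GSM : Prop := ∀ (m : ℕ) (z : Mat m),
  mnr z 0 = 1 ∧ (∀ j : Fin m, mnr z ((j : ℕ) + 1) = mnr z (j : ℕ) * ‖oc z j‖ ^ 2) ∧
  |z.det| = ∏ j, ‖oc z j‖ ∧ (z.det ≠ 0 → ∀ j, 0 < ‖oc z j‖) ∧
  (∀ j, ‖oc z j‖ ≤ ‖col z j‖ ∧ ‖col z j‖ ≤ m * sz z) ∧
  (∀ j, oc z j = col z j - (Submodule.span ℝ (col z '' Set.Iio j)).starProjection (col z j)) ∧
  (z.det ≠ 0 → ∀ j, Module.finrank ℝ (Submodule.span ℝ (col z '' Set.Iio j)) = (j : ℕ))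

/-- PWF: the power function by orthogonal components -/
def T_PWF : Prop := ∀ (m : ℕ) (mu : Fin m → ℂ) (z : Mat m), z.det ≠ 0 →
  pw mu z = ∏ j, ((‖oc z j‖ : ℝ) : ℂ) ^ (-(mu j) + (2 * ((j : ℕ) + 1 : ℂ) - m - 1) / 2) ∧
  ‖pw mu z‖ = ∏ j, ‖oc z j‖ ^ xp mu j

/-- SCP: properties of the scalings -/
def T_SCP : Prop := ∀ (m : ℕ) (ρ : Fin m → ℝ), (∀ j, 0 < ρ j) →
  (∀ (z : Mat m) (j : Fin m), oc (sc ρ z) j = ρ j • oc z j) ∧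
  (∀ z : Mat m, (sc ρ z).det = (∏ j, ρ j) * z.det) ∧
  (∀ (c : ℝ) (z : Mat m), sc ρ (c • z) = c • sc ρ z ∧ ∀ j, oc (c • z) j = c • oc z j) ∧
  (∀ z : Mat m, sc (fun j => (ρ j)⁻¹) (sc ρ z) = z) ∧
  ((∀ j, 1 ≤ ρ j) → ∀ z : Mat m, sz z ≤ m * sz (sc ρ z)) ∧
  Measurable (fun z : V m => ((fun i j => sc ρ (mt z) i j) : V m)) ∧
  ∀ j, Measurable (fun z : V m => oc (mt z) j)

/-- the column `j` of `z` is replaced -/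
noncomputable def rc {m : ℕ} (j : Fin m) (z : V m) (c : EuclideanSpace ℝ (Fin m)) : V m :=
  fun i l => if l = j then c i else z i l

/-- CFB: integration over the column `j` -/
def T_CFB : Prop := ∀ (m : ℕ) (j : Fin m),
  MeasurePreserving (fun p : V m × EuclideanSpace ℝ (Fin m) => rc j p.1 p.2)
    ((volume.restrict {z : V m | ∀ i, z i j ∈ Set.Icc (0 : ℝ) 1}).prod volume) volume

/-- SC1: change of variables for one column -/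
def T_SC1 : Prop := ∀ (m : ℕ) (j : Fin m) (t : ℝ), 0 < t → ∀ f : V m → ENNReal, Measurable f →
  ENNReal.ofReal (t ^ (m - (j : ℕ))) *
    ∫⁻ z, f (fun i l => sc (Function.update 1 j t) (mt z) i l) = ∫⁻ z, f z

/-- SCJ: change of variables for the Haar measure -/
def T_SCJ : Prop := ∀ (m : ℕ) (ρ : Fin m → ℝ), (∀ j, 0 < ρ j) →
  ∀ f : V m → ENNReal, Measurable f →
  ∫⁻ z, f (fun i l => sc ρ (mt z) i l) ∂(hm m) =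
    ENNReal.ofReal (∏ j, ρ j ^ (j : ℕ)) * ∫⁻ z, f z ∂(hm m)

/-- DIL: the local transform of a scaled function -/
def T_DIL : Prop := ∀ (m : ℕ), 1 ≤ m → ∀ (mu : Fin m → ℂ), ∑ j, mu j = 0 →
  ∀ (ρ : Fin m → ℝ), (∀ j, 0 < ρ j) → ∀ f : Mat m → ℂ, Measurable (fun z : V m => f (mt z)) →
  ∀ r : ℝ, 0 < r → th1 (fun z => f (sc ρ z)) mu r =
    (∏ j, ((ρ j : ℝ) : ℂ) ^ (mu j + ((m : ℂ) - 1) / 2)) *
      th1 f mu (r * (∏ j, ρ j) ^ (-(1 / (m : ℝ))))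

/-! ### column integrals -/

/-- CL1: one column -/
def T_CL1 : Prop := ∀ (m : ℕ) (η B : ℝ), 0 < η → 0 ≤ B → ∃ C : ℝ, 0 < C ∧
  ∀ (W : Submodule ℝ (EuclideanSpace ℝ (Fin m))) (d : ℕ), Module.finrank ℝ W = d → d < m →
  ∀ β : ℝ, η ≤ β + (m - d) → β ≤ B →
    ∫⁻ c : EuclideanSpace ℝ (Fin m), ENNReal.ofReal
      (‖c - W.starProjection c‖ ^ β * (1 + ‖c‖) ^ (-(B + m + 1))) ≤ ENNReal.ofReal C

/-- COL: all columns -/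
def T_COL : Prop := ∀ (m : ℕ), 1 ≤ m → ∀ (η B : ℝ), 0 < η → 0 ≤ B → ∃ C : ℝ, 0 < C ∧
  ∀ β : Fin m → ℝ, (∀ j, η ≤ β j + (m - (j : ℕ)) ∧ β j ≤ B) →
    ∫⁻ z : V m, ENNReal.ofReal ((∏ j, ‖oc (mt z) j‖ ^ β j) *
      (1 + sz (mt z)) ^ (-((m : ℝ) * (B + m + 1)))) ≤ ENNReal.ofReal C

/-- SHZ: integrals over the shell -/
def T_SHZ : Prop := ∀ (m : ℕ), 1 ≤ m → ∀ (ε B : ℝ) (K : ℕ), 0 < ε → 0 ≤ B →
  (m : ℝ) ^ 2 / 2 + ε ≤ K →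
  ∃ (C : ℝ) (N : ℕ), 0 < C ∧ ∀ (mu : Fin m → ℂ) (b : Fin m → ℝ) (f : Mat m → ℂ) (M : ℝ),
    ∑ j, mu j = 0 → (∀ j, |(mu j).re| ≤ B ∧ 0 ≤ b j ∧ b j ≤ B) →
    (∀ j, (mu j).re - b j ≤ 1 / 2 + ε / (2 * m)) → 0 ≤ M →
    Measurable (fun z : V m => f (mt z)) →
    (∀ z, z.det ≠ 0 → ‖f z‖ ≤ M * (∏ j, ‖oc z j‖ ^ b j) * (1 + sz z) ^ (-(N : ℝ))) →
    ∀ r : ℝ, 0 < r →
      ∫⁻ z in Shell m, ENNReal.ofReal ‖f ((r⁻¹ * (aN (mt z))⁻¹) • mt z) * pw mu (mt z)‖ ∂(hm m) ≤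
        ENNReal.ofReal (C * M * min (r ^ K) (r ^ ((m : ℝ) ^ 2 / 2 + ε)))

/-- SHP: integrability over the shell for all parameters -/
def T_SHP : Prop := ∀ (m : ℕ), 1 ≤ m → ∀ (mu : Fin m → ℂ), ∑ j, mu j = 0 →
  ∃ N : ℕ, IntegrableOn (fun z : V m => (1 + sz (mt z)) ^ (-(N : ℝ)) * ‖pw mu (mt z)‖) (Shell m)
    (hm m)

/-! ### the differences -/

/-- EXB: exponentials -/
def T_EXB : Prop := ∀ K : ℕ, ∃ C : ℝ, 0 < C ∧ ∀ x : ℝ,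
  ‖∑ n ∈ Finset.range (K + 1), (((pK K).coeff n : ℝ) : ℂ) * ee (2 ^ n * x)‖ ≤ C * |x| ^ K

/-- TAY: the differences of a Fourier transform -/
def T_TAY : Prop := ∀ (m : ℕ) (K : Fin m → ℕ), ∃ C : ℝ, 0 < C ∧ ∀ (φ : Mat m → ℂ) (M : ℝ),
  Continuous φ → 0 ≤ M → (∀ z, ‖φ z‖ ≤ M) → (∀ z, φ z ≠ 0 → sz z ≤ 2) →
  ∀ z : Mat m, ‖sK K (cf φ) z‖ ≤ C * M * ∏ j, ‖oc z j‖ ^ K j

/-- RPS: differences of a rapidly decreasing function -/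
def T_RPS : Prop := ∀ (m : ℕ) (K : Fin m → ℕ) (N : ℕ), ∃ C : ℝ, 0 < C ∧
  ∀ (f : Mat m → ℂ) (M : ℝ), 0 ≤ M → (∀ z, ‖f z‖ ≤ M * (1 + sz z) ^ (-(N : ℝ))) →
  ∀ z : Mat m, ‖sK K f z‖ ≤ C * M * (1 + sz z) ^ (-(N : ℝ))

/-- TDS: the local transform of both differences is the same -/
def T_TDS : Prop := ∀ (m : ℕ), 1 ≤ m → ∀ (mu : Fin m → ℂ), ∑ j, mu j = 0 →
  ∀ (K : Fin m → ℕ) (f : Mat m → ℂ), Measurable (fun z : V m => f (mt z)) → Rap f →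
  ∀ r : ℝ, 0 < r → th1 (dK K (cmu mu) f) mu r = th1 (sK K f) mu r ∧
    th1 (dK K (cmu mu) f) mu r =
      ∑ n ∈ nK K, cK K (cmu mu) n * th1 f mu (r * (tw n)⁻¹)

/-! ### derivatives -/

/-- THE: derivative of the local transform -/
def T_THE : Prop := ∀ (m : ℕ), 1 ≤ m → ∀ (mu : Fin m → ℂ), ∑ j, mu j = 0 →
  ∀ f f1 : Mat m → ℂ, Continuous f → Continuous f1 → Rap f → Rap f1 →
  (∀ z, HasDerivAt (fun c : ℝ => f (c • z)) (f1 z) 1) →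
  ∀ r : ℝ, 0 < r → HasDerivAt (th1 f mu) (-((r : ℂ)⁻¹ * th1 f1 mu r)) r

/-- EUL: the Euler operator on test functions and their Fourier transforms -/
def T_EUL : Prop := ∀ (m : ℕ), 1 ≤ m → ∀ Φ : Mat m → ℂ, TstS m Φ →
  TstS m (eu Φ) ∧ TstS m (eu2 Φ) ∧ (∀ z, HasDerivAt (fun c : ℝ => Φ (c • z)) (eu Φ z) 1) ∧
  ∀ w, HasDerivAt (fun c : ℝ => cf Φ (c • w)) (cf (eu2 Φ) w) 1

/-- BEU: bounds for the Euler operator on the bump functions -/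
def T_BEU : Prop := ∀ (m : ℕ) (χ : ℝ → ℝ), 1 ≤ m → Prof χ → ∃ (C : ℝ) (A : ℕ), 0 < C ∧
  ∀ δ : ℝ, 0 < δ → δ ≤ 1 / 2 → TstS m (bump m χ δ) ∧ ∀ z : Mat m,
    ‖bump m χ δ z‖ ≤ 1 ∧ ‖eu (bump m χ δ) z‖ ≤ C * δ⁻¹ ^ A ∧
    (bump m χ δ z ≠ 0 → dO z ≤ δ ^ 2) ∧ (eu (bump m χ δ) z ≠ 0 → dO z ≤ δ ^ 2) ∧
    (dO z ≤ δ ^ 2 → sz z ≤ 2)

/-- FTE: decay of the Fourier transforms -/
def T_FTE : Prop := ∀ (m : ℕ) (χ : ℝ → ℝ), 1 ≤ m → Prof χ → ∀ N : ℕ, ∃ (C : ℝ) (A : ℕ), 0 < C ∧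
  ∀ δ : ℝ, 0 < δ → δ ≤ 1 / 2 → ∀ w : Mat m,
    ‖cf (bump m χ δ) w‖ ≤ C * δ⁻¹ ^ A * (1 + sz w) ^ (-(N : ℝ)) ∧
    ‖cf (eu2 (bump m χ δ)) w‖ ≤ C * δ⁻¹ ^ A * (1 + sz w) ^ (-(N : ℝ))

/-! ### the adapted test function -/

/-- TCM: the local transform of functions supported near the orthogonal group -/
def T_TCM : Prop := ∀ (m : ℕ), 1 ≤ m → ∃ c0 C r0 : ℝ, 0 < c0 ∧ 0 < C ∧ 1 < r0 ∧
  ∀ (mu : Fin m → ℂ) (δ M : ℝ) (f : Mat m → ℂ), ∑ j, mu j = 0 → 0 < δ → δ ≤ 1 / 2 →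
    δ * (1 + ∑ j, ‖mu j‖) ≤ c0 → 0 ≤ M → (∀ z, ‖f z‖ ≤ M) → (∀ z, f z ≠ 0 → dO z ≤ δ ^ 2) →
    ∀ r : ℝ, 0 < r → ‖th1 f mu r‖ ≤ C * M ∧ (th1 f mu r ≠ 0 → r0⁻¹ ≤ r ∧ r ≤ r0) ∧
      (Measurable (fun z : V m => f (mt z)) → IntegrableOn (fun z : V m =>
        f ((r⁻¹ * (aN (mt z))⁻¹) • mt z) * pw mu (mt z)) (Shell m) (hm m))

/-- TCK: the local transform of the combination of dilates -/
def T_TCK : Prop := ∀ (m : ℕ), 1 ≤ m → ∀ (ε B : ℝ) (K1 : ℕ), 0 < ε → 0 ≤ B →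
  ∃ c0 C : ℝ, 0 < c0 ∧ 0 < C ∧ ∀ (mu : Fin m → ℂ) (K : Fin m → ℕ) (c : Fin m → ℂ) (δ M : ℝ)
    (f : Mat m → ℂ), ∑ j, mu j = 0 → (∀ j, (K j : ℝ) ≤ B ∧ ‖c j‖ ≤ B) → 0 < δ → δ ≤ 1 / 2 →
    δ * (1 + ∑ j, ‖mu j‖) ≤ c0 → 0 ≤ M → Measurable (fun z : V m => f (mt z)) →
    (∀ z, ‖f z‖ ≤ M) → (∀ z, f z ≠ 0 → dO z ≤ δ ^ 2) → ∀ r : ℝ, 0 < r →
    ‖th1 (eK K c f) mu r‖ ≤ C * M * min (r ^ K1) (r ^ ((m : ℝ) ^ 2 / 2 + ε))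

/-- EKD: the combinations as Fourier transforms -/
def T_EKD : Prop := ∀ (m : ℕ), 1 ≤ m → ∀ (K : Fin m → ℕ) (c : Fin m → ℂ) (Φ : Mat m → ℂ),
  TstS m Φ → TstS m (eK K c Φ) ∧ (∀ w, cf (eK K c Φ) w = dK K (fun j => (starRingEnd ℂ) (c j))
    (cf Φ) w) ∧
  eu (eK K c Φ) = eK K c (eu Φ) ∧ eu2 (eK K c Φ) = eK K c (eu2 Φ)

/-- ZEK: the zeta integral of the combination -/
def T_ZEK : Prop := ∀ (m : ℕ), 1 ≤ m → ∀ (K : Fin m → ℕ) (c : Fin m → ℂ) (Φ : Mat m → ℂ)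
  (mu : Fin m → ℂ), ∑ j, mu j = 0 → Tst m Φ → ∀ s : ℂ,
  Zf (eK K c Φ) mu s =
    (∏ j, ∑ n ∈ Finset.range (K j + 1), (((pK (K j)).coeff n : ℝ) : ℂ) *
      (c j * (2 : ℂ) ^ (s + ((m : ℂ) - 1) / 2 - m)) ^ n) * Zf Φ mu s

/-- PKB: the polynomial off its zeros, and its coefficients -/
def T_PKB : Prop := (∀ (K : ℕ) (X : ℂ), ∑ n ∈ Finset.range (K + 1),
      (((pK K).coeff n : ℝ) : ℂ) * X ^ n = ∏ k ∈ Finset.range K, ((1 / 2 : ℂ) ^ k * X - 1)) ∧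
  (∀ (K : ℕ) (X : ℂ) (ε : ℝ), 0 < ε → (2 : ℝ) ^ (((K : ℝ) - 1) + ε) ≤ ‖X‖ →
    ((2 : ℝ) ^ ε - 1) ^ K ≤
      ‖∑ n ∈ Finset.range (K + 1), (((pK K).coeff n : ℝ) : ℂ) * X ^ n‖) ∧
  ∀ (K n : ℕ), |(pK K).coeff n| ≤ 2 ^ K

/-- THB: the bounds at infinity for the differences of the Fourier transforms -/
def T_THB : Prop := ∀ (B : ℝ), 0 ≤ B → ∀ m : ℕ, 1 ≤ m → ∀ (ε : ℝ) (K1 : ℕ), 0 < ε →
  (m : ℝ) ^ 2 / 2 + ε ≤ K1 →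
  ∃ (C : ℝ) (N : ℕ), 0 < C ∧ ∀ (mu : Fin m → ℂ) (K : Fin m → ℕ) (φ : Mat m → ℂ) (M : ℝ),
    ∑ j, mu j = 0 → (∀ j, |(mu j).re| ≤ B ∧ (K j : ℝ) ≤ B) →
    (∀ j, (mu j).re - K j ≤ 1 / 2 + ε / (4 * m)) → 0 ≤ M → Continuous φ → (∀ z, ‖φ z‖ ≤ M) →
    (∀ z, φ z ≠ 0 → sz z ≤ 2) → Continuous (cf φ) → Rap (cf φ) →
    (∀ w, ‖cf φ w‖ ≤ M * (1 + sz w) ^ (-(N : ℝ))) →
    ∀ r : ℝ, 0 < r → ‖th1 (dK K (cmu mu) (cf φ)) mu r‖ ≤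
      C * M * min (r ^ K1) (r ^ ((m : ℝ) ^ 2 / 2 + ε))

/-! ### the parameters of bounded forms -/

/-- AP1: bounded forms have bounded spherical functions -/
def T_AP1 : Prop := ∀ (m q : ℕ) [NeZero q] (T : ℕ → Finset (ZM m)) (F : Mat m → RM m q → ℂ)
  (lam : ℕ → ℂ) (mu : Fin m → ℂ), 1 ≤ m → EigZ m q T F lam mu → NZ F →
  ∀ k : Mat m → ℂ, Tst m k → ‖∫ z, k (mt z) * pw mu (mt z) ∂(hm m)‖ ≤ ∫ z, ‖k (mt z)‖ ∂(hm m)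

/-- the sum of the squares of the entries -/
noncomputable def fr {m : ℕ} (z : Mat m) : ℝ := ∑ i, ∑ j, z i j ^ 2

/-- AP2: extension to Gaussians -/
def T_AP2 : Prop := ∀ (m : ℕ), 1 ≤ m → ∀ (mu : Fin m → ℂ),
  (∀ k : Mat m → ℂ, Tst m k →
    ‖∫ z, k (mt z) * pw mu (mt z) ∂(hm m)‖ ≤ ∫ z, ‖k (mt z)‖ ∂(hm m)) →
  ∀ σ0 : ℝ, ((m : ℝ) - 1) / 2 < σ0 → ∃ C : ℝ, ∀ s : ℂ, σ0 ≤ s.re → s.re ≤ σ0 + 1 →
    (∀ j, (mu j).re < s.re) →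
    ‖∫ z, ((Real.exp (-Real.pi * fr (mt z)) : ℝ) : ℂ) *
      ((|(mt z).det| : ℝ) : ℂ) ^ (s + ((m : ℂ) - 1) / 2) * pw mu (mt z) ∂(hm m)‖ ≤ C

/-- GA1: one column -/
def T_GA1 : Prop := ∀ (m d : ℕ), d < m → ∃ c : ℂ, c ≠ 0 ∧
  ∀ W : Submodule ℝ (EuclideanSpace ℝ (Fin m)), Module.finrank ℝ W = d → ∀ κ : ℂ, 0 < κ.re →
    Integrable (fun v : EuclideanSpace ℝ (Fin m) => ((‖v - W.starProjection v‖ : ℝ) : ℂ) ^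
      (κ - ((m : ℂ) - d)) * ((Real.exp (-Real.pi * ‖v‖ ^ 2) : ℝ) : ℂ)) ∧
    ∫ v : EuclideanSpace ℝ (Fin m), ((‖v - W.starProjection v‖ : ℝ) : ℂ) ^
      (κ - ((m : ℂ) - d)) * ((Real.exp (-Real.pi * ‖v‖ ^ 2) : ℝ) : ℂ) =
      c * ((Real.pi : ℂ) ^ (-κ / 2) * Complex.Gamma (κ / 2))

/-- GAU: the Gaussian -/
def T_GAU : Prop := ∀ (m : ℕ), 1 ≤ m → ∃ c : ℂ, c ≠ 0 ∧ ∀ (mu : Fin m → ℂ) (s : ℂ),
  (∀ j, (mu j).re < s.re) →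
    ∫ z, ((Real.exp (-Real.pi * fr (mt z)) : ℝ) : ℂ) *
      ((|(mt z).det| : ℝ) : ℂ) ^ (s + ((m : ℂ) - 1) / 2) * pw mu (mt z) ∂(hm m) =
    c * ∏ j, ((Real.pi : ℂ) ^ (-(s - mu j) / 2) * Complex.Gamma ((s - mu j) / 2))

/-- APB: the a priori bound -/
def T_APB : Prop := ∀ (m q : ℕ) [NeZero q] (T : ℕ → Finset (ZM m)) (F : Mat m → RM m q → ℂ)
  (lam : ℕ → ℂ) (mu : Fin m → ℂ), 1 ≤ m → EigZ m q T F lam mu → NZ F →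
  ∀ j, (mu j).re ≤ ((m : ℝ) - 1) / 2

end Pool.Agent.H27.L1.H34.GZ
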